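import Mathlib

set_option autoImplicit false

/-!
# Cyclic functions in spaces with the two-point Pick property

Problem MP_e53bfd_an, own statement, partial. For a reproducing kernel Hilbert space `H` with kernel
`K` and the two-point scalar Pick property, `K(x,y) ≠ 0` is transitive. If its classes are countable
in number, then there is one cyclic `g` such that every finite linear combination of kernel functions
is a multiplier times `g`. If they are uncountable in number, then no function of `H` is a multiplier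
times a cyclic function. The space `ℓ²(Y)`, `Y` uncountable, has the complete Pick property and is of
the second kind: this is the negated form of Q1, but only as it is worded (the space is not separable
and its kernel is reducible).
-/

namespace Pool.Agent.Results.MP_e53bfd_an.CyclicCriterion

open scoped InnerProductSpace ComplexOrder ComplexConjugate ENNReal

variable {X : Type*} (H : Type*) [NormedAddCommGroup H] [InnerProductSpace ℂ H] [CompleteSpace H]
  [RKHS ℂ H X ℂ]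

/-- The reproducing kernel `K(x,y)`. -/
noncomputable def ker (x y : X) : ℂ := RKHS.kernel H x y 1

/-- The kernel function `K_y`. -/
noncomputable def kf (y : X) : H := RKHS.kerFun H y 1

/-- `φ` is a multiplier: `φ f` lies in `H` for every `f` in `H`. -/
def IsMultiplier (φ : X → ℂ) : Prop := ∀ f : H, ∃ g : H, ∀ x, g x = φ x * f x

variable {H} in
/-- `g` is cyclic: the multiples `φ g`, `φ` a multiplier, are dense in `H`. -/
def IsCyclic (g : H) : Prop :=
  Dense {k : H | ∃ φ : X → ℂ, IsMultiplier H φ ∧ ∀ x, k x = φ x * g x}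

/-- The `m`-point Pick property for `n × n` matrices: if the points `x_i` are distinct and the block
matrix `(1 - W_i W_j*) K(x_i, x_j)` is positive semidefinite, then there is a matrix multiplier `Φ`
of `H ⊗ ℂⁿ` of norm at most `1` with `Φ(x_i) = W_i`. -/
def Pick (m n : ℕ) : Prop :=
  ∀ (x : Fin m → X) (W : Fin m → Matrix (Fin n) (Fin n) ℂ), Function.Injective x →
    (Matrix.of fun p q : Fin m × Fin n =>
      (1 - W p.1 * (W q.1).conjTranspose) p.2 q.2 * ker H (x p.1) (x q.1)).PosSemidef →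
    ∃ Φ : X → Matrix (Fin n) (Fin n) ℂ, (∀ i, Φ (x i) = W i) ∧
      ∀ F : Fin n → H, ∃ G : Fin n → H, (∀ a z, G a z = ∑ b, Φ z a b * F b z) ∧
        ∑ a, ‖G a‖ ^ 2 ≤ ∑ a, ‖F a‖ ^ 2

/-- The complete Pick property. -/
def CompletePick : Prop := ∀ m n : ℕ, 1 ≤ n → Pick H m n

variable {H} in
/-- `f` is a multiplier times a cyclic function. -/
def Factors (f : H) : Prop :=
  ∃ (φ : X → ℂ) (g : H), IsMultiplier H φ ∧ IsCyclic g ∧ ∀ x, f x = φ x * g x

/-- The classes of the relation `K(x,y) ≠ 0` on the set of all `x` with `K(x,x) ≠ 0`. -/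
def classes : Set (Set X) := {C | ∃ x, ker H x x ≠ 0 ∧ C = {y | ker H x y ≠ 0}}

variable {H}

lemma kf_inner (x : X) (f : H) : ⟪kf H x, f⟫_ℂ = f x := by
  unfold kf
  rw [RKHS.kerFun_inner]
  simp

lemma kf_apply (x y : X) : (kf H y) x = ker H x y := by
  unfold kf ker
  rw [RKHS.kerFun_apply]

lemma ker_eq (x y : X) : ker H x y = ⟪kf H x, kf H y⟫_ℂ := by
  rw [kf_inner, kf_apply]

lemma ker_conj (x y : X) : conj (ker H x y) = ker H y x := by
  rw [ker_eq, ker_eq, inner_conj_symm]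

lemma ker_self (x : X) : ker H x x = ((‖kf H x‖ ^ 2 : ℝ) : ℂ) := by
  rw [ker_eq, inner_self_eq_norm_sq_to_K]
  norm_cast

lemma kf_ne_zero_iff (x : X) : kf H x ≠ 0 ↔ ker H x x ≠ 0 := by
  rw [ker_eq, ne_eq, ne_eq, inner_self_eq_zero]

lemma ker_symm_ne {x y : X} (h : ker H x y ≠ 0) : ker H y x ≠ 0 := by
  rw [← ker_conj]
  exact (map_ne_zero _).2 h

lemma ker_left_ne {x y : X} (h : ker H x y ≠ 0) : ker H x x ≠ 0 := by
  rw [← kf_ne_zero_iff]
  rintro h0
  rw [ker_eq, h0, inner_zero_left] at h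
  exact h rfl

lemma ker_right_ne {x y : X} (h : ker H x y ≠ 0) : ker H y y ≠ 0 := ker_left_ne (ker_symm_ne h)

lemma apply_eq_zero {x : X} (h : ker H x x = 0) (f : H) : f x = 0 := by
  have h0 : kf H x = 0 := by
    by_contra hc
    exact (kf_ne_zero_iff x).1 hc h
  rw [← kf_inner, h0, inner_zero_left]

omit [CompleteSpace H] in
/-- A contractive multiplier is given by a contraction. -/
lemma exists_op (ψ : X → ℂ) (h : ∀ f : H, ∃ g : H, (∀ x, g x = ψ x * f x) ∧ ‖g‖ ≤ ‖f‖) :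
    ∃ T : H →L[ℂ] H, (∀ f, ‖T f‖ ≤ ‖f‖) ∧ ∀ f x, (T f) x = ψ x * f x := by
  choose g hg hn using h
  let L : H →ₗ[ℂ] H :=
    { toFun := g
      map_add' := fun a b => by
        apply RKHS.ext
        intro x
        rw [hg, RKHS.coe_add, RKHS.coe_add, Pi.add_apply, Pi.add_apply, hg, hg, mul_add]
      map_smul' := fun c a => by
        apply RKHS.ext
        intro x
        rw [hg, RKHS.coe_smul, RingHom.id_apply, RKHS.coe_smul, Pi.smul_apply, Pi.smul_apply, hg,
          smul_eq_mul, smul_eq_mul]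
        ring }
  refine ⟨L.mkContinuous 1 (fun f => by rw [one_mul]; exact hn f), hn, hg⟩

lemma adjoint_kf {ψ : X → ℂ} {T : H →L[ℂ] H} (hT : ∀ f x, (T f) x = ψ x * f x) (x : X) :
    (ContinuousLinearMap.adjoint T) (kf H x) = conj (ψ x) • kf H x := by
  refine ext_inner_right ℂ fun f => ?_
  rw [ContinuousLinearMap.adjoint_inner_left, kf_inner, hT, inner_smul_left, kf_inner,
    Complex.conj_conj]

/-- If `T` is a contraction and `‖T* u‖ = ‖u‖`, then `T T* u = u`. -/
lemma op_adjoint_eq {T : H →L[ℂ] H} (hT : ∀ f, ‖T f‖ ≤ ‖f‖) {u : H}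
    (hu : ‖(ContinuousLinearMap.adjoint T) u‖ = ‖u‖) :
    T ((ContinuousLinearMap.adjoint T) u) = u := by
  set v := (ContinuousLinearMap.adjoint T) u with hv
  have h1 : ‖T v - u‖ ^ 2 = ‖T v‖ ^ 2 - 2 * RCLike.re ⟪T v, u⟫_ℂ + ‖u‖ ^ 2 :=
    norm_sub_sq (𝕜 := ℂ) _ _
  have h2 : ⟪T v, u⟫_ℂ = ⟪v, v⟫_ℂ := by
    rw [hv, ContinuousLinearMap.adjoint_inner_right]
  have h3 : RCLike.re ⟪v, v⟫_ℂ = ‖v‖ ^ 2 := inner_self_eq_norm_sq (𝕜 := ℂ) v
  have h4 : ‖T v‖ ^ 2 ≤ ‖v‖ ^ 2 := pow_le_pow_left₀ (norm_nonneg _) (hT v) 2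
  rw [h2, h3, hu] at h1
  rw [hu] at h4
  have h5 : ‖T v - u‖ ^ 2 ≤ 0 := by linarith
  have h6 : ‖T v - u‖ = 0 := by
    have := sq_nonneg ‖T v - u‖
    exact pow_eq_zero_iff (two_ne_zero) |>.1 (le_antisymm h5 this)
  exact sub_eq_zero.1 (norm_eq_zero.1 h6)

/-- The two-point Pick problem: the kernel functions of one class are multiples of each other. -/
lemma key (hP : Pick H 2 1) {x₀ y : X} (h : ker H x₀ y ≠ 0) :
    ∃ (ψ : X → ℂ) (T : H →L[ℂ] H) (r : ℝ) (c : ℂ), 0 ≤ r ∧ r < 1 ∧ c ≠ 0 ∧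
      (∀ f, ‖T f‖ ≤ ‖f‖) ∧ (∀ f x, (T f) x = ψ x * f x) ∧
      kf H y - (r : ℂ) • T (kf H y) = c • kf H x₀ := by
  by_cases hxy : x₀ = y
  · subst hxy
    refine ⟨fun _ => 0, 0, 0, 1, le_rfl, one_pos, one_ne_zero, fun f => by simp, fun f x => ?_, ?_⟩
    · simp
    · simp
  set a : ℝ := ‖kf H x₀‖ ^ 2 with ha
  set b : ℝ := ‖kf H y‖ ^ 2 with hb
  set k : ℂ := ker H x₀ y with hk
  have hka : ker H x₀ x₀ = (a : ℂ) := ker_self x₀
  have hkb : ker H y y = (b : ℂ) := ker_self y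
  have ha0 : 0 < a := by
    have : kf H x₀ ≠ 0 := (kf_ne_zero_iff x₀).2 (ker_left_ne h)
    positivity
  have hb0 : 0 < b := by
    have : kf H y ≠ 0 := (kf_ne_zero_iff y).2 (ker_right_ne h)
    positivity
  have hk0 : 0 < ‖k‖ := norm_pos_iff.2 h
  have hkab : ‖k‖ ^ 2 ≤ a * b := by
    have h1 : ‖k‖ ≤ ‖kf H x₀‖ * ‖kf H y‖ := by
      rw [hk, ker_eq]
      exact norm_inner_le_norm _ _
    calc ‖k‖ ^ 2 ≤ (‖kf H x₀‖ * ‖kf H y‖) ^ 2 := pow_le_pow_left₀ (norm_nonneg _) h1 2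
      _ = a * b := by rw [ha, hb, mul_pow]
  have hkk : k * conj k = ((‖k‖ ^ 2 : ℝ) : ℂ) := by
    rw [Complex.mul_conj, Complex.normSq_eq_norm_sq]
  have hyx : ker H y x₀ = conj k := (ker_conj x₀ y).symm
  set r : ℝ := Real.sqrt (1 - ‖k‖ ^ 2 / (a * b)) with hr
  have hab : 0 < a * b := mul_pos ha0 hb0
  have hq : 0 ≤ 1 - ‖k‖ ^ 2 / (a * b) := by
    rw [sub_nonneg, div_le_one hab]
    exact hkab
  have hr2 : r ^ 2 = 1 - ‖k‖ ^ 2 / (a * b) := Real.sq_sqrt hq
  have hr0 : 0 ≤ r := Real.sqrt_nonneg _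
  have hr1 : r < 1 := by
    have : r ^ 2 < 1 := by
      rw [hr2]
      have : 0 < ‖k‖ ^ 2 / (a * b) := by positivity
      linarith
    nlinarith
  have hr2b : r ^ 2 * b = b - ‖k‖ ^ 2 / a := by
    rw [hr2]
    field_simp
  have hs : Real.sqrt a ≠ 0 := (Real.sqrt_pos.2 ha0).ne'
  have hss : ((Real.sqrt a : ℝ) : ℂ) * (Real.sqrt a : ℝ) = (a : ℂ) := by
    rw [← Complex.ofReal_mul, Real.mul_self_sqrt ha0.le]
  have hsc : ((Real.sqrt a : ℝ) : ℂ) ≠ 0 := by exact_mod_cast hs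
  have hac : (a : ℂ) ≠ 0 := by exact_mod_cast ha0.ne'
  obtain ⟨Φ, hΦ, hF⟩ := hP ![x₀, y] ![0, Matrix.of fun _ _ => (r : ℂ)] (by
      intro i j hij
      fin_cases i <;> fin_cases j <;> simp_all) (by
      have hM : (Matrix.of fun p q : Fin 2 × Fin 1 =>
          (1 - (![0, Matrix.of fun _ _ => (r : ℂ)] : Fin 2 → Matrix (Fin 1) (Fin 1) ℂ) p.1 *
            ((![0, Matrix.of fun _ _ => (r : ℂ)] : Fin 2 → Matrix (Fin 1) (Fin 1) ℂ)
              q.1).conjTranspose) p.2 q.2 * ker H ((![x₀, y] : Fin 2 → X) p.1)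
                ((![x₀, y] : Fin 2 → X) q.1)) =
          Matrix.vecMulVec (fun p : Fin 2 × Fin 1 =>
            (![((Real.sqrt a : ℝ) : ℂ), conj k / ((Real.sqrt a : ℝ) : ℂ)] : Fin 2 → ℂ) p.1)
            (star (fun p : Fin 2 × Fin 1 =>
            (![((Real.sqrt a : ℝ) : ℂ), conj k / ((Real.sqrt a : ℝ) : ℂ)] : Fin 2 → ℂ) p.1)) := by
        have h00 : (a : ℂ) = ((Real.sqrt a : ℝ) : ℂ) * conj ((Real.sqrt a : ℝ) : ℂ) := by
          rw [Complex.conj_ofReal, hss]
        have h01 : k = ((Real.sqrt a : ℝ) : ℂ) * conj (conj k / ((Real.sqrt a : ℝ) : ℂ)) := by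
          rw [map_div₀, Complex.conj_conj, Complex.conj_ofReal]
          field_simp
        have h10 : conj k = conj k / ((Real.sqrt a : ℝ) : ℂ) * conj ((Real.sqrt a : ℝ) : ℂ) := by
          rw [Complex.conj_ofReal]
          field_simp
        have h11 : (1 - (r : ℂ) * (r : ℂ)) * (b : ℂ) = conj k / ((Real.sqrt a : ℝ) : ℂ) *
            conj (conj k / ((Real.sqrt a : ℝ) : ℂ)) := by
          rw [map_div₀, Complex.conj_conj, Complex.conj_ofReal]
          have e1 : (1 - (r : ℂ) * (r : ℂ)) * (b : ℂ) = ((b - r ^ 2 * b : ℝ) : ℂ) := by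
            push_cast
            ring
          rw [e1, hr2b, div_mul_div_comm, hss, mul_comm (conj k) k, hkk]
          push_cast
          ring
        ext ⟨i, i'⟩ ⟨j, j'⟩
        fin_cases i <;> fin_cases j <;> fin_cases i' <;> fin_cases j'
        · simpa [Matrix.vecMulVec_apply, hka] using h00
        · simpa [Matrix.vecMulVec_apply, ← hk] using h01
        · simpa [Matrix.vecMulVec_apply, hyx] using h10
        · simpa [Matrix.vecMulVec_apply, hkb, Matrix.mul_apply] using h11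
      rw [hM]
      exact Matrix.posSemidef_vecMulVec_self_star _)
  have h0 : Φ x₀ = 0 := by simpa using hΦ 0
  have h1 : Φ y = Matrix.of fun _ _ => (r : ℂ) := by simpa using hΦ 1
  obtain ⟨ψ, hψ0, hψ1, hψ⟩ : ∃ ψ : X → ℂ, ψ x₀ = 0 ∧ ψ y = (r : ℂ) ∧
      ∀ f : H, ∃ g : H, (∀ x, g x = ψ x * f x) ∧ ‖g‖ ≤ ‖f‖ := by
    refine ⟨fun z => Φ z 0 0, by simp [h0], by simp [h1], fun f => ?_⟩
    obtain ⟨G, hG, hn⟩ := hF (fun _ => f)
    refine ⟨G 0, fun x => ?_, ?_⟩
    · rw [hG 0 x]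
      simp
    · simp only [Fin.sum_univ_one] at hn
      exact (pow_le_pow_iff_left₀ (norm_nonneg _) (norm_nonneg _) two_ne_zero).1 hn
  obtain ⟨T, hT, hTm⟩ := exists_op (H := H) ψ hψ
  set c : ℂ := k / (a : ℂ) with hc
  refine ⟨ψ, T, r, c, hr0, hr1, div_ne_zero h hac, hT, hTm, ?_⟩
  have hadj : (ContinuousLinearMap.adjoint T) (kf H y - c • kf H x₀) = (r : ℂ) • kf H y := by
    rw [map_sub, map_smul, adjoint_kf hTm, adjoint_kf hTm, hψ0, hψ1, map_zero, zero_smul, smul_zero,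
      sub_zero, Complex.conj_ofReal]
  have hnorm : ‖kf H y - c • kf H x₀‖ ^ 2 = r ^ 2 * b := by
    have e1 : ‖kf H y - c • kf H x₀‖ ^ 2 =
        ‖kf H y‖ ^ 2 - 2 * RCLike.re ⟪kf H y, c • kf H x₀⟫_ℂ + ‖c • kf H x₀‖ ^ 2 :=
      norm_sub_sq (𝕜 := ℂ) _ _
    have e2 : ⟪kf H y, c • kf H x₀⟫_ℂ = ((‖k‖ ^ 2 / a : ℝ) : ℂ) := by
      rw [inner_smul_right, ← ker_eq, hyx, hc, div_mul_eq_mul_div, hkk]
      push_cast
      rfl
    have e3 : ‖c • kf H x₀‖ ^ 2 = ‖k‖ ^ 2 / a := by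
      rw [norm_smul, mul_pow, ← ha, hc, norm_div, Complex.norm_of_nonneg ha0.le, div_pow]
      field_simp
    rw [e1, e2, e3, ← hb, hr2b]
    have e4 : RCLike.re (((‖k‖ ^ 2 / a : ℝ) : ℂ)) = ‖k‖ ^ 2 / a := Complex.ofReal_re _
    rw [e4]
    ring
  have hu : ‖(ContinuousLinearMap.adjoint T) (kf H y - c • kf H x₀)‖ = ‖kf H y - c • kf H x₀‖ := by
    have e1 : ‖(ContinuousLinearMap.adjoint T) (kf H y - c • kf H x₀)‖ ^ 2 = r ^ 2 * b := by
      rw [hadj, norm_smul, mul_pow, Complex.norm_of_nonneg hr0]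
    exact (pow_left_inj₀ (norm_nonneg _) (norm_nonneg _) two_ne_zero).1 (e1.trans hnorm.symm)
  have hfin := op_adjoint_eq hT hu
  rw [hadj, map_smul] at hfin
  rw [hfin]
  abel

lemma key_ptw (hP : Pick H 2 1) {x₀ y : X} (h : ker H x₀ y ≠ 0) :
    ∃ (ψ : X → ℂ) (T : H →L[ℂ] H) (r : ℝ) (c : ℂ), 0 ≤ r ∧ r < 1 ∧ c ≠ 0 ∧
      (∀ f, ‖T f‖ ≤ ‖f‖) ∧ (∀ f x, (T f) x = ψ x * f x) ∧
      ∀ x, (1 - r * ψ x) * ker H x y = c * ker H x x₀ := by
  obtain ⟨ψ, T, r, c, hr0, hr1, hc, hT, hTm, he⟩ := key hP h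
  refine ⟨ψ, T, r, c, hr0, hr1, hc, hT, hTm, fun x => ?_⟩
  have h3 : (kf H y - (r : ℂ) • T (kf H y)) x = (c • kf H x₀) x := by rw [he]
  rw [RKHS.coe_sub, RKHS.coe_smul, RKHS.coe_smul, Pi.sub_apply, Pi.smul_apply, Pi.smul_apply, hTm,
    kf_apply, kf_apply, smul_eq_mul, smul_eq_mul] at h3
  rw [← h3]
  ring

/-- Transitivity of the relation `K(x,y) ≠ 0`. -/
lemma ker_trans (hP : Pick H 2 1) {x y z : X} (h1 : ker H x y ≠ 0) (h2 : ker H y z ≠ 0) :
    ker H x z ≠ 0 := by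
  obtain ⟨ψ, T, r, c, hr0, hr1, hc, hT, hTm, he⟩ := key_ptw hP h2
  intro h4
  have h5 := he x
  rw [h4, mul_zero] at h5
  exact mul_ne_zero hc h1 h5.symm

lemma norm_le_one {ψ : X → ℂ} {T : H →L[ℂ] H} (hT : ∀ f, ‖T f‖ ≤ ‖f‖)
    (hTm : ∀ f x, (T f) x = ψ x * f x) {x : X} (hx : ker H x x ≠ 0) : ‖ψ x‖ ≤ 1 := by
  have h1 : ‖T‖ ≤ 1 := ContinuousLinearMap.opNorm_le_bound _ zero_le_one (fun f => by
    rw [one_mul]; exact hT f)
  have h2 : ‖(ContinuousLinearMap.adjoint T) (kf H x)‖ ≤ ‖kf H x‖ := by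
    refine (ContinuousLinearMap.le_opNorm _ _).trans ?_
    rw [LinearIsometryEquiv.norm_map]
    exact mul_le_of_le_one_left (norm_nonneg _) h1
  rw [adjoint_kf hTm, norm_smul, RCLike.norm_conj] at h2
  have h3 : 0 < ‖kf H x‖ := norm_pos_iff.2 ((kf_ne_zero_iff x).2 hx)
  exact le_of_mul_le_mul_right (by linarith) h3

/-- Kernel functions of one class are multiples of each other. -/
lemma ratio (hP : Pick H 2 1) {x₀ y : X} (h : ker H x₀ y ≠ 0) :
    ∃ φ : X → ℂ, IsMultiplier H φ ∧ ∀ x, ker H x y = φ x * ker H x x₀ := by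
  obtain ⟨ψ, T, r, c, hr0, hr1, hc, hT, hTm, he⟩ := key_ptw hP h
  have hne : ∀ x, ker H x x ≠ 0 → 1 - r * ψ x ≠ 0 := by
    intro x hx h0
    have h1 : ‖(r : ℂ) * ψ x‖ < 1 := by
      rw [norm_mul, Complex.norm_of_nonneg hr0]
      exact (mul_le_of_le_one_right hr0 (norm_le_one hT hTm hx)).trans_lt hr1
    rw [← sub_eq_zero.1 h0, norm_one] at h1
    exact lt_irrefl _ h1
  refine ⟨fun x => c / (1 - r * ψ x), ?_, ?_⟩
  · have hu : IsUnit (1 - (r : ℂ) • T) := by
      refine isUnit_one_sub_of_norm_lt_one ?_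
      rw [norm_smul, Complex.norm_of_nonneg hr0]
      have h1 : ‖T‖ ≤ 1 := ContinuousLinearMap.opNorm_le_bound _ zero_le_one (fun f => by
        rw [one_mul]; exact hT f)
      exact (mul_le_of_le_one_right hr0 h1).trans_lt hr1
    obtain ⟨S, hS⟩ := hu.exists_right_inv
    intro f
    refine ⟨c • S f, fun x => ?_⟩
    have h2 : S f - (r : ℂ) • T (S f) = f := by
      have := congrArg (fun A : H →L[ℂ] H => A f) hS
      simpa using this
    have h3 : (S f - (r : ℂ) • T (S f)) x = f x := by rw [h2]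
    rw [RKHS.coe_sub, RKHS.coe_smul, Pi.sub_apply, Pi.smul_apply, hTm, smul_eq_mul] at h3
    rw [RKHS.coe_smul, Pi.smul_apply, smul_eq_mul]
    by_cases hx : ker H x x = 0
    · rw [apply_eq_zero hx, apply_eq_zero hx, mul_zero, mul_zero]
    · have h4 := hne x hx
      rw [← h3]
      field_simp
  · intro x
    by_cases hx : ker H x x = 0
    · rw [← kf_apply, ← kf_apply, apply_eq_zero hx, apply_eq_zero hx, mul_zero]
    · have h4 := hne x hx
      rw [div_mul_eq_mul_div, eq_div_iff h4, ← he x]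
      ring

/-- The indicator of a class is a multiplier. -/
lemma indicator_multiplier (hP : Pick H 2 1) (x₀ : X) :
    ∃ φ : X → ℂ, IsMultiplier H φ ∧ (∀ x, ker H x₀ x ≠ 0 → φ x = 1) ∧
      ∀ x, ker H x₀ x = 0 → φ x = 0 := by
  classical
  let V : Submodule ℂ H := (Submodule.span ℂ (kf H '' {y | ker H x₀ y ≠ 0})).topologicalClosure
  have : CompleteSpace V := (Submodule.isClosed_topologicalClosure _).completeSpace_coe
  refine ⟨fun x => if ker H x₀ x ≠ 0 then 1 else 0, fun f => ⟨V.starProjection f, fun x => ?_⟩,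
    fun x hx => if_pos hx, fun x hx => if_neg (not_not.2 hx)⟩
  rw [← kf_inner x (V.starProjection f), ← Submodule.inner_starProjection_left_eq_right]
  change _ = (if ker H x₀ x ≠ 0 then (1 : ℂ) else 0) * f x
  by_cases hx : ker H x₀ x ≠ 0
  · have h1 : kf H x ∈ V :=
      Submodule.le_topologicalClosure _ (Submodule.subset_span ⟨x, hx, rfl⟩)
    rw [Submodule.starProjection_eq_self_iff.2 h1, kf_inner, if_pos hx, one_mul]
  · have h1 : kf H x ∈ Vᗮ := by
      rw [Submodule.mem_orthogonal]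
      have h2 : V ≤ (ℂ ∙ kf H x)ᗮ := by
        refine Submodule.topologicalClosure_minimal _ ?_ (Submodule.isClosed_orthogonal _)
        rw [Submodule.span_le]
        rintro _ ⟨y, hy, rfl⟩
        rw [SetLike.mem_coe, Submodule.mem_orthogonal_singleton_iff_inner_right, ← ker_eq]
        by_contra hc
        exact hx (ker_trans hP hy (ker_symm_ne hc))
      intro u hu
      have h3 := h2 hu
      rwa [Submodule.mem_orthogonal_singleton_iff_inner_left] at h3
    rw [(Submodule.starProjection_apply_eq_zero_iff (K := V)).2 h1, inner_zero_left, if_neg hx,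
      zero_mul]

omit [CompleteSpace H] in
lemma IsMultiplier.mul {φ ψ : X → ℂ} (h1 : IsMultiplier H φ) (h2 : IsMultiplier H ψ) :
    IsMultiplier H (fun x => φ x * ψ x) := by
  intro f
  obtain ⟨g, hg⟩ := h2 f
  obtain ⟨k, hk⟩ := h1 g
  exact ⟨k, fun x => by rw [hk, hg, mul_assoc]⟩

omit [CompleteSpace H] in
lemma IsMultiplier.add {φ ψ : X → ℂ} (h1 : IsMultiplier H φ) (h2 : IsMultiplier H ψ) :
    IsMultiplier H (fun x => φ x + ψ x) := by
  intro f
  obtain ⟨g, hg⟩ := h2 f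
  obtain ⟨k, hk⟩ := h1 f
  exact ⟨k + g, fun x => by rw [RKHS.coe_add, Pi.add_apply, hk, hg, add_mul]⟩

omit [CompleteSpace H] in
lemma isMultiplier_const (c : ℂ) : IsMultiplier H (fun _ : X => c) := by
  intro f
  exact ⟨c • f, fun x => by rw [RKHS.coe_smul, Pi.smul_apply, smul_eq_mul]⟩

/-- The multiples of `g`. -/
def orbit (g : H) : Submodule ℂ H where
  carrier := {k : H | ∃ φ : X → ℂ, IsMultiplier H φ ∧ ∀ x, k x = φ x * g x}
  add_mem' := by
    rintro a b ⟨φ, hφ, ha⟩ ⟨ψ, hψ, hb⟩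
    exact ⟨_, hφ.add hψ, fun x => by rw [RKHS.coe_add, Pi.add_apply, ha, hb, add_mul]⟩
  zero_mem' := ⟨fun _ => 0, isMultiplier_const 0, fun x => by simp⟩
  smul_mem' := by
    rintro c a ⟨φ, hφ, ha⟩
    exact ⟨_, (isMultiplier_const c).mul hφ, fun x => by
      rw [RKHS.coe_smul, Pi.smul_apply, smul_eq_mul, ha, mul_assoc]⟩

lemma isCyclic_of {g : H} (h : ∀ y, kf H y ∈ orbit g) : IsCyclic g := by
  have h1 : Dense ((orbit g : Submodule ℂ H) : Set H) := by
    rw [Submodule.dense_iff_topologicalClosure_eq_top, eq_top_iff, ← RKHS.kerFun_dense H]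
    refine Submodule.topologicalClosure_mono ?_
    rw [Submodule.span_le]
    rintro _ ⟨x, v, rfl⟩
    have h2 : RKHS.kerFun H x v = v • kf H x := by
      unfold kf
      rw [← map_smul, smul_eq_mul, mul_one]
    rw [h2]
    exact (orbit g).smul_mem _ (h x)
  exact h1

lemma IsCyclic.apply_ne_zero {g : H} (hg : IsCyclic g) {x : X} (hx : ker H x x ≠ 0) :
    g x ≠ 0 := by
  intro h0
  have h1 : IsClosed {k : H | k x = 0} :=
    isClosed_eq (RKHS.continuous_eval x) continuous_const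
  have h2 : {k : H | ∃ φ : X → ℂ, IsMultiplier H φ ∧ ∀ x, k x = φ x * g x} ⊆ {k : H | k x = 0} := by
    rintro k ⟨φ, -, hk⟩
    rw [Set.mem_ofPred_eq, hk x, h0, mul_zero]
  have h3 : kf H x ∈ {k : H | k x = 0} := h1.closure_subset_iff.2 h2 (hg (kf H x))
  rw [Set.mem_ofPred_eq, kf_apply] at h3
  exact hx h3

/-- Points in different classes are orthogonal. -/
lemma ker_eq_zero_of_ne (hP : Pick H 2 1) {x y : X}
    (hne : {z | ker H x z ≠ 0} ≠ {z | ker H y z ≠ 0}) : ker H x y = 0 := by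
  by_contra hc
  apply hne
  ext z
  exact ⟨fun hz => ker_trans hP (ker_symm_ne hc) hz, fun hz => ker_trans hP hc hz⟩

lemma exists_rep (H : Type*) [NormedAddCommGroup H] [InnerProductSpace ℂ H] [CompleteSpace H]
    [RKHS ℂ H X ℂ] : ∃ x : classes H → X, ∀ C : classes H,
      ker H (x C) (x C) ≠ 0 ∧ (C : Set X) = {y | ker H (x C) y ≠ 0} := by
  choose x hx using fun C : classes H => C.2
  exact ⟨x, hx⟩

/-- A cyclic function forces the classes to be countable in number. -/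
lemma countable_of_cyclic (hP : Pick H 2 1) {g : H} (hg : IsCyclic g) : (classes H).Countable := by
  obtain ⟨x, hx⟩ := exists_rep H
  let e : classes H → H := fun C => ((‖kf H (x C)‖⁻¹ : ℝ) : ℂ) • kf H (x C)
  have hn : ∀ C, ‖kf H (x C)‖ ≠ 0 := fun C => norm_ne_zero_iff.2 ((kf_ne_zero_iff _).2 (hx C).1)
  have he : Orthonormal ℂ e := by
    constructor
    · intro C
      change ‖((‖kf H (x C)‖⁻¹ : ℝ) : ℂ) • kf H (x C)‖ = 1
      rw [norm_smul, Complex.norm_real, norm_inv, norm_norm]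
      exact inv_mul_cancel₀ (hn C)
    · intro C D hCD
      change ⟪((‖kf H (x C)‖⁻¹ : ℝ) : ℂ) • kf H (x C), ((‖kf H (x D)‖⁻¹ : ℝ) : ℂ) • kf H (x D)⟫_ℂ = 0
      rw [inner_smul_left, inner_smul_right, ← ker_eq, ker_eq_zero_of_ne hP, mul_zero, mul_zero]
      rw [← (hx C).2, ← (hx D).2]
      exact fun h => hCD (Subtype.ext h)
  have hs : Summable fun C => ‖⟪e C, g⟫_ℂ‖ ^ 2 := he.inner_products_summable g
  have hc := hs.countable_support
  have h1 : (Function.support fun C => ‖⟪e C, g⟫_ℂ‖ ^ 2) = Set.univ := by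
    refine Set.eq_univ_of_forall fun C => ?_
    rw [Function.mem_support]
    change ‖⟪((‖kf H (x C)‖⁻¹ : ℝ) : ℂ) • kf H (x C), g⟫_ℂ‖ ^ 2 ≠ 0
    rw [inner_smul_left, kf_inner]
    have h2 : g (x C) ≠ 0 := hg.apply_ne_zero (hx C).1
    have h3 : ((‖kf H (x C)‖⁻¹ : ℝ) : ℂ) ≠ 0 := by
      exact_mod_cast inv_ne_zero (hn C)
    exact pow_ne_zero 2 (norm_ne_zero_iff.2 (mul_ne_zero ((map_ne_zero _).2 h3) h2))
  rw [h1] at hc
  exact Set.countable_coe_iff.1 (Set.countable_univ_iff.1 hc)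

/-- Countably many classes: one function `g` of which every kernel function is a multiple. -/
lemma exists_orbit (hP : Pick H 2 1) (hc : (classes H).Countable) :
    ∃ g : H, ∀ y, kf H y ∈ orbit g := by
  obtain ⟨x, hx⟩ := exists_rep H
  have : Countable (classes H) := hc.to_subtype
  obtain ⟨ε, hε, s, hs, -⟩ := NNReal.exists_pos_sum_of_countable (one_ne_zero) (classes H)
  have hn : ∀ C, ‖kf H (x C)‖ ≠ 0 := fun C => norm_ne_zero_iff.2 ((kf_ne_zero_iff _).2 (hx C).1)
  let a : classes H → ℂ := fun C => (((ε C : ℝ) / ‖kf H (x C)‖ : ℝ) : ℂ)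
  have ha : ∀ C, a C ≠ 0 := by
    intro C
    have h1 : (ε C : ℝ) / ‖kf H (x C)‖ ≠ 0 := div_ne_zero (by exact_mod_cast (hε C).ne') (hn C)
    exact Complex.ofReal_ne_zero.2 h1
  have hsum : Summable (fun C => a C • kf H (x C)) := by
    refine Summable.of_norm_bounded (NNReal.summable_coe.2 hs.summable) fun C => ?_
    change ‖(((ε C : ℝ) / ‖kf H (x C)‖ : ℝ) : ℂ) • kf H (x C)‖ ≤ (ε C : ℝ)
    rw [norm_smul, Complex.norm_real, norm_div, norm_norm, div_mul_cancel₀ _ (hn C)]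
    exact (Real.norm_of_nonneg (ε C).2).le
  refine ⟨∑' C, a C • kf H (x C), fun y => ?_⟩
  set g : H := ∑' C, a C • kf H (x C) with hg
  have hgz : ∀ z, HasSum (fun C => a C * ker H z (x C)) (g z) := by
    intro z
    have h1 := (innerSL ℂ (kf H z)).hasSum hsum.hasSum
    simpa only [innerSL_apply_apply, inner_smul_right, kf_apply, kf_inner] using h1
  by_cases hy : ker H y y = 0
  · have h1 : kf H y = 0 := by
      by_contra h
      exact (kf_ne_zero_iff y).1 h hy
    rw [h1]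
    exact (orbit g).zero_mem
  · let C₀ : classes H := ⟨{z | ker H y z ≠ 0}, y, hy, rfl⟩
    have h1 : ker H (x C₀) y ≠ 0 := by
      have h2 : y ∈ (C₀ : Set X) := hy
      rw [(hx C₀).2] at h2
      exact h2
    obtain ⟨φ, hφ, hφ1, hφ0⟩ := indicator_multiplier hP (x C₀)
    obtain ⟨ψ, hψ, hψe⟩ := ratio hP h1
    have h2 : ∀ z, φ z * g z = a C₀ * ker H z (x C₀) := by
      intro z
      by_cases hz : ker H (x C₀) z = 0
      · rw [hφ0 z hz, zero_mul, ← ker_conj, hz, map_zero, mul_zero]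
      · rw [hφ1 z hz, one_mul]
        refine (hgz z).unique (hasSum_single C₀ fun D hD => ?_)
        have h3 : ker H z (x D) = 0 := by
          by_contra hcz
          apply hD
          have h4 : ker H (x C₀) (x D) ≠ 0 := ker_trans hP hz hcz
          apply Subtype.ext
          by_contra h5
          apply h4
          apply ker_eq_zero_of_ne hP
          rw [← (hx C₀).2, ← (hx D).2]
          exact fun h => h5 h.symm
        rw [h3, mul_zero]
    refine ⟨fun z => ψ z * ((a C₀)⁻¹ * φ z), hψ.mul ((isMultiplier_const _).mul hφ), fun z => ?_⟩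
    rw [kf_apply, hψe, mul_assoc, mul_assoc, h2 z, inv_mul_cancel_left₀ (ha C₀)]

/-- `ℓ²(Y)` as a space of functions on `Y`. -/
noncomputable instance l2RKHS (Y : Type*) : RKHS ℂ (lp (fun _ : Y => ℂ) 2) Y ℂ where
  coeCLM := ContinuousLinearMap.pi fun y =>
    LinearMap.mkContinuous
      { toFun := fun f : lp (fun _ : Y => ℂ) 2 => (f : Y → ℂ) y
        map_add' := fun _ _ => rfl
        map_smul' := fun _ _ => rfl } 1 (fun f => by
          rw [one_mul]
          exact lp.norm_apply_le_norm two_ne_zero f y)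
  coeCLM_injective := fun _ _ h => lp.ext h

section
variable {Y : Type*}

lemma l2_apply (f : lp (fun _ : Y => ℂ) 2) (y : Y) :
    (DFunLike.coe (self := RKHS.instFunLike) f) y = (f : ∀ _ : Y, ℂ) y := rfl

open Classical in
lemma l2_kf (y : Y) : kf (lp (fun _ : Y => ℂ) 2) y = lp.single 2 y (1 : ℂ) := by
  refine ext_inner_right ℂ fun f => ?_
  rw [kf_inner, lp.inner_single_left, l2_apply]
  simp

open Classical in
lemma l2_ker (x y : Y) : ker (lp (fun _ : Y => ℂ) 2) x y = if x = y then 1 else 0 := by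
  rw [← kf_apply, l2_kf, l2_apply, lp.single_apply]
  by_cases h : x = y
  · subst h
    simp
  · simp [h]

/-- `W W* ≤ 1` gives `W* W ≤ 1`. -/
lemma contraction {n : ℕ} {W : Matrix (Fin n) (Fin n) ℂ}
    (h : (1 - W * W.conjTranspose).PosSemidef) (v : Fin n → ℂ) :
    ∑ a, ‖∑ b, W a b * v b‖ ^ 2 ≤ ∑ a, ‖v a‖ ^ 2 := by
  have h1 : (1 - W.conjTranspose * W).PosSemidef := by
    have e : 1 - W.conjTranspose * W =
        (1 - W.conjTranspose * W).conjTranspose * (1 - W.conjTranspose * W) +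
          W.conjTranspose * (1 - W * W.conjTranspose) * W := by
      rw [Matrix.conjTranspose_sub, Matrix.conjTranspose_mul, Matrix.conjTranspose_conjTranspose,
        Matrix.conjTranspose_one]
      noncomm_ring
    rw [e]
    exact (Matrix.posSemidef_conjTranspose_mul_self _).add (h.conjTranspose_mul_mul_same W)
  have h2 := h1.dotProduct_mulVec_nonneg v
  have h3 : ∀ u : Fin n → ℂ, star u ⬝ᵥ u = ((∑ a, ‖u a‖ ^ 2 : ℝ) : ℂ) := by
    intro u
    rw [dotProduct]
    push_cast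
    refine Finset.sum_congr rfl fun a _ => ?_
    rw [Pi.star_apply, RCLike.star_def, Complex.conj_mul']
  rw [Matrix.sub_mulVec, Matrix.one_mulVec, dotProduct_sub, ← Matrix.mulVec_mulVec,
    Matrix.dotProduct_mulVec, ← Matrix.star_mulVec, h3, h3] at h2
  rw [← Complex.ofReal_sub, Complex.zero_le_real, sub_nonneg] at h2
  exact h2

lemma l2_hasSum (f : lp (fun _ : Y => ℂ) 2) :
    HasSum (fun y => ‖f y‖ ^ 2) (‖f‖ ^ 2) := by
  have h := lp.hasSum_norm (p := 2) (by norm_num) f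
  simpa [ENNReal.toReal_ofNat, Real.rpow_ofNat] using h

lemma l2_completePick : CompletePick (lp (fun _ : Y => ℂ) 2) := by
  classical
  intro m n _ x W hx hpsd
  have hW : ∀ i, (1 - W i * (W i).conjTranspose).PosSemidef := by
    intro i
    have h1 := hpsd.submatrix (fun a : Fin n => (i, a))
    have h2 : (Matrix.of fun p q : Fin m × Fin n =>
        (1 - W p.1 * (W q.1).conjTranspose) p.2 q.2 *
          ker (lp (fun _ : Y => ℂ) 2) (x p.1) (x q.1)).submatrix (fun a : Fin n => (i, a))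
            (fun a : Fin n => (i, a)) = 1 - W i * (W i).conjTranspose := by
      ext a b
      rw [Matrix.submatrix_apply, Matrix.of_apply, l2_ker, if_pos rfl, mul_one]
    rwa [h2] at h1
  let Φ : Y → Matrix (Fin n) (Fin n) ℂ := Function.extend x W fun _ => 0
  have hΦ : ∀ (y : Y) (v : Fin n → ℂ), ∑ a, ‖∑ b, Φ y a b * v b‖ ^ 2 ≤ ∑ a, ‖v a‖ ^ 2 := by
    intro y v
    by_cases hy : ∃ i, x i = y
    · obtain ⟨i, rfl⟩ := hy
      have h1 : Φ (x i) = W i := hx.extend_apply W (fun _ => 0) i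
      rw [h1]
      exact contraction (hW i) v
    · have h1 : Φ y = 0 := Function.extend_apply' W (fun _ => 0) y hy
      rw [h1]
      simp only [Matrix.zero_apply, zero_mul, Finset.sum_const_zero, norm_zero]
      rw [zero_pow two_ne_zero, Finset.sum_const_zero]
      exact Finset.sum_nonneg fun a _ => sq_nonneg _
  refine ⟨Φ, fun i => hx.extend_apply W (fun _ => 0) i, fun F => ?_⟩
  have hs : HasSum (fun y => ∑ a, ‖F a y‖ ^ 2) (∑ a, ‖F a‖ ^ 2) :=
    hasSum_sum fun a _ => l2_hasSum (F a)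
  have hG : ∀ a, Memℓp (fun y => ∑ b, Φ y a b * F b y) (2 : ℝ≥0∞) := by
    intro a
    apply memℓp_gen
    have h1 : Summable fun y => ‖∑ b, Φ y a b * F b y‖ ^ 2 := by
      refine Summable.of_nonneg_of_le (fun y => sq_nonneg _) (fun y => ?_) hs.summable
      exact (Finset.single_le_sum (f := fun a => ‖∑ b, Φ y a b * F b y‖ ^ 2)
        (fun a _ => sq_nonneg _) (Finset.mem_univ a)).trans (hΦ y fun b => F b y)
    simpa [ENNReal.toReal_ofNat, Real.rpow_ofNat] using h1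
  refine ⟨fun a => ⟨fun y => ∑ b, Φ y a b * F b y, hG a⟩, fun a y => rfl, ?_⟩
  refine hasSum_le (fun y => ?_) (hasSum_sum fun a _ => l2_hasSum _) hs
  exact hΦ y fun b => F b y

lemma l2_classes (h : (classes (lp (fun _ : Y => ℂ) 2)).Countable) : Countable Y := by
  classical
  have := h.to_subtype
  have h1 : ∀ y : Y, ker (lp (fun _ : Y => ℂ) 2) y y ≠ 0 := fun y => by
    rw [l2_ker, if_pos rfl]
    exact one_ne_zero
  refine Function.Injective.countable (β := classes (lp (fun _ : Y => ℂ) 2))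
    (f := fun y => ⟨{z | ker (lp (fun _ : Y => ℂ) 2) y z ≠ 0}, y, h1 y, rfl⟩) ?_
  intro y z hyz
  have h2 : {w | ker (lp (fun _ : Y => ℂ) 2) y w ≠ 0} = {w | ker (lp (fun _ : Y => ℂ) 2) z w ≠ 0} :=
    congrArg Subtype.val hyz
  have h3 : z ∈ {w | ker (lp (fun _ : Y => ℂ) 2) y w ≠ 0} := by
    rw [h2]
    exact h1 z
  by_contra h4
  apply h3
  rw [l2_ker, if_neg h4]

end

/-- **Main theorem.** First part: `H` has the two-point scalar Pick property. Second part: the space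
`L` is `ℓ²(Y)`, its kernel vanishes off the diagonal. -/
theorem result.{u, v, w} :
    (∀ (X : Type u) (H : Type v) [NormedAddCommGroup H] [InnerProductSpace ℂ H] [CompleteSpace H]
      [RKHS ℂ H X ℂ], Pick H 2 1 →
        (∀ x y z : X, ker H x y ≠ 0 → ker H y z ≠ 0 → ker H x z ≠ 0) ∧
        ((classes H).Countable → ∃ g : H, IsCyclic g ∧
          ∀ f ∈ Submodule.span ℂ (Set.range (kf H)), ∃ φ : X → ℂ, IsMultiplier H φ ∧
            ∀ x, f x = φ x * g x) ∧
        (¬ (classes H).Countable → ∀ f : H, ¬ Factors f)) ∧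
    (∀ Y : Type w, Uncountable Y → ∃ (L : Type w) (_ : NormedAddCommGroup L)
      (_ : InnerProductSpace ℂ L) (_ : CompleteSpace L) (_ : RKHS ℂ L Y ℂ),
        (∀ x y : Y, ker L x y = 0 ↔ x ≠ y) ∧ CompletePick L ∧ ∀ f : L, ¬ Factors f) := by
  refine ⟨?_, ?_⟩
  · intro X H _ _ _ _ hP
    refine ⟨fun x y z h1 h2 => ker_trans hP h1 h2, fun hc => ?_, fun hc f => ?_⟩
    · obtain ⟨g, hg⟩ := exists_orbit hP hc
      refine ⟨g, isCyclic_of hg, fun f hf => ?_⟩
      have h1 : Submodule.span ℂ (Set.range (kf H)) ≤ orbit g := by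
        rw [Submodule.span_le]
        rintro _ ⟨y, rfl⟩
        exact hg y
      exact h1 hf
    · rintro ⟨φ, g, -, hg, -⟩
      exact hc (countable_of_cyclic hP hg)
  · intro Y hY
    refine ⟨lp (fun _ : Y => ℂ) 2, inferInstance, inferInstance, inferInstance, l2RKHS Y,
      fun x y => ?_, l2_completePick, ?_⟩
    · classical
      rw [l2_ker]
      simp
    · rintro f ⟨φ, g, -, hg, -⟩
      have h1 := l2_classes (countable_of_cyclic (l2_completePick 2 1 le_rfl) hg)
      exact not_countable_iff.2 hY h1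

end Pool.Agent.Results.MP_e53bfd_an.CyclicCriterion
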